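import Pool.Agent.WTG.Frame
import Pool.Agent.WTG.Dbound

/-!
# An additive error `K n^(h-2)` for all `k`-chromatic `F` with a colour-critical edge (MP_aeb998_co)

Gerbner's question for all `k ≥ 3`, all bipartite `H` and all `k`-chromatic graphs `F` with a colour-critical edge, up to an additive error of the order
`n^(h-2)`, `h = |V(H)|`.
-/

namespace Pool.Agent.Results.MP_aeb998_co.AdditiveError

open Pool.Agent.WT7 Pool.Agent.WTG

/-- Let `H` be bipartite with `h` vertices and let `F` be a `k`-chromatic graph with a colour-critical edge, `k ≥ 3`. There is a constant `K` with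
`ex(n, H, F) ≤ ex(n, H, K_k) + K n^(h-2)` for all `n`; and if `H` is weakly `K_k`-Turan-good then for all large `n` some complete `(k-1)`-partite
graph `G` (with nonempty parts) on `n` vertices, which is `F`-free, has at least `ex(n, H, F) - K n^(h-2)` copies of `H`. -/
theorem result {α β : Type} [Fintype α] [Fintype β] (k : ℕ) (hk : 3 ≤ k) (H : SimpleGraph α) (hH : H.Colorable 2)
    (F : SimpleGraph β) (hF : F.chromaticNumber = k) (he : ∃ e, IsColorCritical F e) :
    ∃ K : ℕ, (∀ n, ex n H F ≤ ex n H (⊤ : SimpleGraph (Fin k)) + K * n ^ (Fintype.card α - 2)) ∧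
      (WeaklyTuranGood H (⊤ : SimpleGraph (Fin k)) → ∃ n₀ : ℕ, ∀ n ≥ n₀, ∃ G : SimpleGraph (Fin n),
        IsCompletePartite G (k - 1) ∧ F.Free G ∧ ex n H F ≤ G.copyCount H + K * n ^ (Fintype.card α - 2)) := by
  obtain ⟨q, rfl⟩ : ∃ q, k = q + 2 := ⟨k - 2, by omega⟩
  rw [← Nat.card_eq_fintype_card]
  have hFe : ∃ a b, F.Adj a b := by
    obtain ⟨e, he⟩ := he
    induction e with
    | _ u v => exact ⟨u, v, he.1⟩
  exact finK (by omega) hH hF he fun γ _ _ H' h1 h2 =>
    progK hFe (fun V _ G hG => embK hF he V G hG) (dbound (t := Nat.card β) (by omega) h1 h2)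

end Pool.Agent.Results.MP_aeb998_co.AdditiveError
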