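import Pool.Agent.WTK.FinK

/-!
# Weak Turan-goodness for all `k` (MP_aeb998_co)

Gerbner's question, for all `k = q + 2 ≥ 3` and all `H`: a positive answer for every `k`-chromatic graph `F` with a homomorphism to the graph
`M q` which takes every vertex `x i` of the clique `{x 0, .., x (k-1)}` of `M q` at most once (`InM F q`).

The class of these `F` contains (proved in `Pool/Agent/WTK/Ex.lean`)
* `k = 3`: all graphs with a colour-critical edge which is in at most one triangle (`inM_crit3`),
* all graphs which arise from two `(k-1)`-coloured graphs by identifying vertices of the colour `0` of the first with vertices of the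
  colour `0` of the second and adding an edge between two further vertices of colour `0`, one in each graph; in particular all Hajos joins
  of two `k`-chromatic graphs along colour-critical edges (`inM_glue`),
* all graphs which consist of `K_k` with bipartite graphs attached at its vertices (`inM_KB`).
-/

namespace Pool.Agent.Results.MP_aeb998_co.AllChromaticNumbers

open Pool.Agent.WT7 Pool.Agent.WTK

/-- Let `k = q + 2 ≥ 3`, let `H` be `K_k`-free, and let `F` be a `k`-chromatic graph with a homomorphism to `M q` which takes every `x i` at
most once. If `H` is `(k-1)`-colourable then `ex(n, H, F) ≤ ex(n, H, K_k)` for all large `n`; if `H` is weakly `K_k`-Turan-good then it is weakly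
`F`-Turan-good. -/
theorem result {α β : Type} [Fintype α] [Fintype β] (q : ℕ) (hq : 1 ≤ q) (H : SimpleGraph α)
    (hH : H.CliqueFree (q + 2)) (F : SimpleGraph β) (hχ : F.chromaticNumber = (q + 2 : ℕ)) (hF : InM F q) :
    (H.Colorable (q + 1) → ∃ n₀ : ℕ, ∀ n ≥ n₀, ex n H F ≤ ex n H (⊤ : SimpleGraph (Fin (q + 2)))) ∧
      (WeaklyTuranGood H (⊤ : SimpleGraph (Fin (q + 2))) → WeaklyTuranGood H F) := by
  refine ⟨fun h => exK hq h ?_ hF, goodK hq hH hχ hF⟩
  by_contra hcon
  push Not at hcon
  have h1 : F.Colorable 1 := ⟨SimpleGraph.Coloring.mk (fun _ => 0) fun {a b} hab => absurd hab (hcon a b)⟩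
  have h2 := h1.chromaticNumber_le
  rw [hχ] at h2
  have h3 : q + 2 ≤ 1 := by exact_mod_cast h2
  omega

end Pool.Agent.Results.MP_aeb998_co.AllChromaticNumbers
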