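import Pool.Agent.WTE.ProgX
import Pool.Agent.WTE.Book
import Pool.Agent.WTE.Degen

/-!
# The case `k = 3` of Gerbner's question: books, and graphs with few vertices in triangles (MP_aeb998_co)

For every weakly `K₃`-Turan-good `H` the following are equivalent: `H` is weakly `F`-Turan-good for all 3-chromatic `F` with a colour-critical edge;
`H` is weakly `F`-Turan-good for all books `F = K_{1,1,t}`; for large `n`, graphs with a bounded number of vertices in triangles do not have
more copies of `H` than triangle-free graphs.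
-/

namespace Pool.Agent.Results.MP_aeb998_co.BookReduction

open Pool.Agent.WT7 Pool.Agent.WTE

/-- Let `H` be weakly `K₃`-Turan-good. Then the following are equivalent: (a) `H` is weakly `F`-Turan-good for every 3-chromatic `F` with a
colour-critical edge, (b) `H` is weakly `Book t`-Turan-good for all `t ≥ 1`, (c) for every `e`, for all large `n`, every graph on `n` vertices with at
most `e` vertices in triangles has at most `ex(n, H, K₃)` copies of `H`. -/
theorem result {α : Type} [Fintype α] (H : SimpleGraph α) (hg : WeaklyTuranGood H (⊤ : SimpleGraph (Fin 3))) :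
    ((∀ (β : Type) [Fintype β] (F : SimpleGraph β), F.chromaticNumber = 3 → (∃ e, IsColorCritical F e) →
        WeaklyTuranGood H F) ↔ ∀ t : ℕ, 1 ≤ t → WeaklyTuranGood H (Book t)) ∧
      ((∀ t : ℕ, 1 ≤ t → WeaklyTuranGood H (Book t)) ↔
        ∀ e : ℕ, ∃ n₀ : ℕ, ∀ n ≥ n₀, ∀ G : SimpleGraph (Fin n), (Tri G).ncard ≤ e →
          G.copyCount H ≤ ex n H (⊤ : SimpleGraph (Fin 3))) := by
  have hca : (∀ e : ℕ, ∃ n₀ : ℕ, ∀ n ≥ n₀, ∀ G : SimpleGraph (Fin n), (Tri G).ncard ≤ e →
      G.copyCount H ≤ ex n H (⊤ : SimpleGraph (Fin 3))) → ∀ (β : Type) [Fintype β] (F : SimpleGraph β),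
      F.chromaticNumber = 3 → (∃ e, IsColorCritical F e) → WeaklyTuranGood H F := by
    intro hc β _ F hF he
    exact c_to_a (col_of_c hg hc) hg hc hF he
  have hab : (∀ (β : Type) [Fintype β] (F : SimpleGraph β), F.chromaticNumber = 3 → (∃ e, IsColorCritical F e) →
      WeaklyTuranGood H F) → ∀ t : ℕ, 1 ≤ t → WeaklyTuranGood H (Book t) :=
    fun ha t ht => ha _ (Book t) (book_chi ht) (book_crit ht)
  exact ⟨⟨hab, fun hb => hca (b_to_c hb)⟩, ⟨b_to_c, fun hc => hab (hca hc)⟩⟩

end Pool.Agent.Results.MP_aeb998_co.BookReduction
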