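import Pool.Agent.WTE.ECFin

/-!
# An exact result without stability (MP_aeb998_co)

Gerbner's question for `k = 3` and every 3-chromatic graph `F` with a colour-critical edge, for the bipartite graphs `H` (without isolated vertices) with
`∑ u, π(H - u) < 3 |V(H)| π(H)`.
-/

namespace Pool.Agent.Results.MP_aeb998_co.NumericCriterion

open Pool.Agent.WT7 Pool.Agent.WTE

/-- Let `H` be a bipartite graph without isolated vertices, and let `pi3 K` be the supremum of the homomorphism densities of `K` in triangle-free graphs.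
If `∑ u, pi3 (H - u) < 3 |V(H)| pi3 H` then for every 3-chromatic graph `F` with a colour-critical edge `ex(n, H, F) ≤ ex(n, H, K₃)` for all large `n`; in particular,
if `H` is weakly `K₃`-Turan-good then `H` is weakly `F`-Turan-good. -/
theorem result {α β : Type} [Fintype α] [Fintype β] (H : SimpleGraph α) (hH : H.Colorable 2) (hI : ∀ x, ∃ y, H.Adj x y)
    (hnum : ∑ u : α, pi3 (H.induce {w | w ≠ u}) < 3 * Fintype.card α * pi3 H) (F : SimpleGraph β)
    (hF : F.chromaticNumber = 3) (he : ∃ e, IsColorCritical F e) :
    (∃ n₀ : ℕ, ∀ n ≥ n₀, ex n H F ≤ ex n H (⊤ : SimpleGraph (Fin 3))) ∧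
      (WeaklyTuranGood H (⊤ : SimpleGraph (Fin 3)) → WeaklyTuranGood H F) := by
  have hne : Nonempty α := by
    by_contra hcon
    rw [not_nonempty_iff] at hcon
    simp at hnum
  rw [← Nat.card_eq_fintype_card] at hnum
  have hc := fewTri_num hI hnum
  exact ⟨ex_le_of_fewTri hH hc hF he, fun hg => c_to_a hH hg (copy_of_fewTri hc) hF he⟩

end Pool.Agent.Results.MP_aeb998_co.NumericCriterion
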